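import Pool.Agent.R861.MT.C

/-!
# The multiplicity of a point of the Monster tower is well defined

`Coord`, `InChart`, `frame`, `criticalSubmanifolds`, `Germ` and `mult` are defined in
`Pool.Agent.R861.MT.Defs`.

Let `γ ∈ Germ(p)` and let `m_j - 1` be the order of vanishing at `0` of the velocity of the `j`-th
prolongation `γ^j`; so `m_0` is the multiplicity of `γ`, and `m_k = 1`. For `1 ≤ j ≤ k` let `r_j` be
the greatest `r ≤ k` such that the image of `p` in `𝒫^r(n)` lies in `𝒫^{r-j}(F_j)`. We prove that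
`m_{j-1} = ∑_{l=j}^{r_j} m_l`. The numbers `r_j` depend only on `p`, so `m_0` is determined by `p`.
-/

set_option autoImplicit false

namespace Pool.Agent.Results.MP_32880b_ag.MultiplicityWellDefined

open Pool.Agent.R861.MT

/-- **Main theorem.** Let `n, k ≥ 0`, let `p` be a point of the `k`-th floor `𝒫^k(n)` of the Monster
tower over `ℂ^n`, given by its coordinates in the affine chart with the word `i 1, …, i k` (these
charts cover `𝒫^k(n)`). Then `Germ(p)` is not empty, and all curve germs `γ ∈ Germ(p)` have the same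
multiplicity, which is finite. -/
theorem result (n k : ℕ) (i : ℕ → Fin n) (p : Coord n k) (hp : InChart i p) :
    (Germ i p).Nonempty ∧ ∃ m : ℕ, ∀ γ ∈ Germ i p, mult γ = m := by
  obtain ⟨γ₀, h₀⟩ := germ_nonempty i hp
  refine ⟨⟨γ₀, h₀⟩, ?_⟩
  have h1 : mult γ₀ ≠ ⊤ := by
    intro h
    apply h₀.2.1
    unfold mult at h
    rw [analyticOrderAt_eq_top] at h
    filter_upwards [h] with t ht
    exact sub_eq_zero.1 ht
  obtain ⟨m, hm⟩ := ENat.ne_top_iff_exists.1 h1
  exact ⟨m, fun γ hγ => by rw [mult_eq hγ h₀, ← hm]⟩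

end Pool.Agent.Results.MP_32880b_ag.MultiplicityWellDefined
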